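import Mathlib
import Pool.Agent.X78.PC7

set_option autoImplicit false

/-!
# Paths lying on cycles in regular `k`-connected graphs

For all integers `d ≥ k ≥ 0` we determine the set `S(d,k)` of all `ℓ ≥ 0` such that in every
`d`-regular `k`-connected finite graph every path with `ℓ` edges lies on a cycle:

* `S(0,0) = {ℓ ≥ 1}`, `S(1,k) = {ℓ ≥ 2}`, `S(2,k) = {0,1,2,…}`;
* for `d ≥ 3` and `k ≤ 1`: `S(d,k) = {0,1}` if `d` is even and `S(d,k) = ∅` if `d` is odd;
* `S(3,3) = {0,1,2,3,4}`;
* `S(d,k) = {0,1,…,k}` for all other `d ≥ 3`, `k ≥ 2`.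
-/

namespace Pool.Agent.Results.MP_520f61_co.PathClosing

/-- `G` is `d`-regular. -/
def Regular {V : Type} (G : SimpleGraph V) (d : ℕ) : Prop := ∀ v, (G.neighborSet v).ncard = d

/-- `G` is `k`-connected (for finite `G`): `k = 0`, or `G` has more than `k` vertices and remains
connected after deleting any set `R` of fewer than `k` vertices. -/
def KConnected {V : Type} (G : SimpleGraph V) (k : ℕ) : Prop :=
  k = 0 ∨ (k < Nat.card V ∧ ∀ R : Set V, R.ncard < k → (G.induce Rᶜ).Connected)

/-- The path `p` closes to a cycle: `G` has a cycle `c` containing `p` as a subgraph. -/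
def ClosesToCycle {V : Type} {G : SimpleGraph V} {u v : V} (p : G.Walk u v) : Prop :=
  ∃ (w : V) (c : G.Walk w w), c.IsCycle ∧ p.toSubgraph ≤ c.toSubgraph

/-- The set `S(d,k)` of all `ℓ` such that in every finite `d`-regular `k`-connected graph every
path with exactly `ℓ` edges closes to a cycle. -/
def S (d k : ℕ) : Set ℕ :=
  {ℓ | ∀ (V : Type) [Finite V] (G : SimpleGraph V), Regular G d → KConnected G k →
    ∀ (u v : V) (p : G.Walk u v), p.IsPath → p.length = ℓ → ClosesToCycle p}

/-- Determination of `S(d,k)` for all pairs `d ≥ k ≥ 0`. -/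
theorem result (d k : ℕ) (hkd : k ≤ d) : S d k =
    if d = 0 then {ℓ | 1 ≤ ℓ}
    else if d = 1 then {ℓ | 2 ≤ ℓ}
    else if d = 2 then Set.univ
    else if k ≤ 1 then (if Even d then {ℓ | ℓ ≤ 1} else ∅)
    else if d = 3 ∧ k = 3 then {ℓ | ℓ ≤ 4}
    else {ℓ | ℓ ≤ k} :=
  PCyc.main d k hkd

end Pool.Agent.Results.MP_520f61_co.PathClosing
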